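import Mathlib

namespace Pool.Agent.Results.MP_07bc1a_al.AcyclicNotACCP

/-- `H` is acyclic: `u x v ≠ x` whenever `u` or `v` is not a unit. -/
def IsAcyclic (H : Type) [Monoid H] : Prop :=
  ∀ u v x : H, (¬ IsUnit u ∨ ¬ IsUnit v) → u * x * v ≠ x

/-- The principal two-sided ideal `H x H`. -/
def principal {H : Type} [Monoid H] (x : H) : Set H := {z | ∃ p q : H, z = p * x * q}

inductive L : Type
  | a : L
  | b : L
  | c : L
  | d : L
  deriving DecidableEq

instance : Fintype L := ⟨{L.a, L.b, L.c, L.d}, by intro x; cases x <;> simp⟩

/-- The word starts with `b^k c` for some `k`. -/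
def bc : List L → Bool
  | L.b :: w => bc w
  | L.c :: _ => true
  | _ => false

/-- Left multiplication by `d` on normal forms: `d a b^(k+1) c y` is rewritten to `a b^k c y`. -/
def D : List L → List L
  | L.a :: L.b :: w => if bc w then L.a :: w else L.d :: L.a :: L.b :: w
  | w => L.d :: w

/-- Left multiplication by a letter on normal forms. -/
def gen : L → Function.End (List L)
  | L.a => fun w => L.a :: w
  | L.b => fun w => L.b :: w
  | L.c => fun w => L.c :: w
  | L.d => D

/-- The action of words. -/
def Φ : FreeMonoid L →* Function.End (List L) := FreeMonoid.lift gen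

/-- `run U w` is the action of the word `U` on `w`. -/
def run (U : List L) (w : List L) : List L := Φ (FreeMonoid.ofList U) w

theorem run_nil (w : List L) : run [] w = w := by
  show Φ 1 w = w
  rw [map_one]; rfl

theorem run_cons (g : L) (U w : List L) : run (g :: U) w = gen g (run U w) := by
  show Φ (FreeMonoid.of g * FreeMonoid.ofList U) w = _
  rw [map_mul]
  show Φ (FreeMonoid.of g) (Φ (FreeMonoid.ofList U) w) = _
  rw [Φ, FreeMonoid.lift_eval_of]
  rfl

theorem bc_spec (w : List L) (h : bc w = true) :
    ∃ (k : ℕ) (y : List L), w = List.replicate k L.b ++ L.c :: y := by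
  induction w with
  | nil => simp [bc] at h
  | cons x w ih =>
    cases x with
    | a => simp [bc] at h
    | b =>
      obtain ⟨k, y, rfl⟩ := ih h
      exact ⟨k + 1, y, rfl⟩
    | c => exact ⟨0, w, rfl⟩
    | d => simp [bc] at h

theorem bc_rep (k : ℕ) (y : List L) : bc (List.replicate k L.b ++ L.c :: y) = true := by
  induction k with
  | zero => rfl
  | succ k ih => exact ih

theorem bc_no_c (v : List L) (h : L.c ∉ v) : bc v = false := by
  by_contra hne
  have : bc v = true := by simpa using hne
  obtain ⟨k, y, rfl⟩ := bc_spec v this
  simp at h

theorem bc_append (w v : List L) (h : L.c ∉ v) : bc (w ++ v) = bc w := by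
  induction w with
  | nil => rw [List.nil_append, bc_no_c v h]; rfl
  | cons x w ih =>
    cases x with
    | a => rfl
    | b => exact ih
    | c => rfl
    | d => rfl

theorem D_ab (w : List L) : D (L.a :: L.b :: w) = if bc w then L.a :: w
    else L.d :: L.a :: L.b :: w := rfl

theorem D_other (w : List L) (h : ∀ w', w ≠ L.a :: L.b :: w') : D w = L.d :: w := by
  match w with
  | [] => rfl
  | [x] => cases x <;> rfl
  | L.a :: L.b :: w => exact absurd rfl (h w)
  | L.a :: L.a :: w => rfl
  | L.a :: L.c :: w => rfl
  | L.a :: L.d :: w => rfl
  | L.b :: y :: w => rfl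
  | L.c :: y :: w => rfl
  | L.d :: y :: w => rfl

theorem D_append (w v : List L) (h : L.c ∉ v) : D (w ++ v) = D w ++ v := by
  by_cases hw : ∃ w', w = L.a :: L.b :: w'
  · obtain ⟨w', rfl⟩ := hw
    rw [List.cons_append, List.cons_append, D_ab, D_ab, bc_append _ _ h]
    split_ifs <;> rfl
  · push Not at hw
    rw [D_other w hw]
    by_cases hv : ∃ w', w ++ v = L.a :: L.b :: w'
    · obtain ⟨w', hw'⟩ := hv
      have hb : bc w' = false := by
        apply bc_no_c
        -- `w` has length at most one
        match w, hw, hw' with
        | [], _, hw' =>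
          rw [List.nil_append] at hw'
          rw [hw'] at h
          exact fun hc => h (by simp [hc])
        | [x], _, hw' =>
          simp only [List.cons_append, List.nil_append, List.cons.injEq] at hw'
          rw [hw'.2] at h
          exact fun hc => h (by simp [hc])
        | x :: y :: w, hw, hw' =>
          simp only [List.cons_append, List.cons.injEq] at hw'
          exact absurd (by rw [hw'.1, hw'.2.1]) (hw w)
      rw [hw', D_ab, hb, ← hw']
      simp
    · push Not at hv
      rw [D_other _ hv]
      rfl

theorem run_append (X w v : List L) (h : L.c ∉ v) : run X (w ++ v) = run X w ++ v := by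
  induction X with
  | nil => rw [run_nil, run_nil]
  | cons g X ih =>
    rw [run_cons, run_cons, ih]
    cases g with
    | a => rfl
    | b => rfl
    | c => rfl
    | d => exact D_append _ _ h

theorem count_a_D (w : List L) : (D w).count L.a = w.count L.a := by
  by_cases hw : ∃ w', w = L.a :: L.b :: w'
  · obtain ⟨w', rfl⟩ := hw
    rw [D_ab]
    split_ifs <;> simp
  · push Not at hw
    rw [D_other w hw]
    simp

theorem count_c_D (w : List L) : (D w).count L.c = w.count L.c := by
  by_cases hw : ∃ w', w = L.a :: L.b :: w'
  · obtain ⟨w', rfl⟩ := hw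
    rw [D_ab]
    split_ifs <;> simp
  · push Not at hw
    rw [D_other w hw]
    simp

theorem count_a_run (X w : List L) : (run X w).count L.a = X.count L.a + w.count L.a := by
  induction X with
  | nil => rw [run_nil]; simp
  | cons g X ih =>
    rw [run_cons]
    cases g with
    | a => show (L.a :: run X w).count L.a = _; simp [ih]; ring
    | b => show (L.b :: run X w).count L.a = _; simp [ih]
    | c => show (L.c :: run X w).count L.a = _; simp [ih]
    | d => show (D (run X w)).count L.a = _; rw [count_a_D, ih]; simp

theorem count_c_run (X w : List L) : (run X w).count L.c = X.count L.c + w.count L.c := by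
  induction X with
  | nil => rw [run_nil]; simp
  | cons g X ih =>
    rw [run_cons]
    cases g with
    | a => show (L.a :: run X w).count L.c = _; simp [ih]
    | b => show (L.b :: run X w).count L.c = _; simp [ih]
    | c => show (L.c :: run X w).count L.c = _; simp [ih]; ring
    | d => show (D (run X w)).count L.c = _; rw [count_c_D, ih]; simp

/-- The words over `b, d`. -/
def BD (s : List L) : Prop := ∀ x ∈ s, x = L.b ∨ x = L.d

theorem claim (U : List L) (hU : BD U) (w : List L) :
    run U w = U ++ w ∨ ∃ (k j : ℕ) (y s : List L), BD s ∧ j < k ∧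
      w = L.a :: (List.replicate k L.b ++ L.c :: y) ∧
      run U w = s ++ L.a :: (List.replicate j L.b ++ L.c :: y) := by
  induction U with
  | nil => left; rw [run_nil]; rfl
  | cons g U ih =>
    have hU' : BD U := fun x hx => hU x (by simp [hx])
    rw [run_cons]
    rcases hU g (by simp) with rfl | rfl
    · rcases ih hU' with h | ⟨k, j, y, s, hs, hjk, hw, h⟩
      · left; rw [h]; rfl
      · right
        refine ⟨k, j, y, L.b :: s, ?_, hjk, hw, by rw [h]; rfl⟩
        intro x hx
        rw [List.mem_cons] at hx
        rcases hx with rfl | hx
        · left; rfl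
        · exact hs x hx
    · rcases ih hU' with h | ⟨k, j, y, s, hs, hjk, hw, h⟩
      · rw [h]
        show D (U ++ w) = _ ∨ _
        by_cases hw : ∃ w', U ++ w = L.a :: L.b :: w'
        · obtain ⟨w', hw'⟩ := hw
          have hUnil : U = [] := by
            cases U with
            | nil => rfl
            | cons x U =>
              simp only [List.cons_append, List.cons.injEq] at hw'
              rcases hU' x (by simp) with hx | hx
              · rw [hx] at hw'; exact absurd hw'.1 (by decide)
              · rw [hx] at hw'; exact absurd hw'.1 (by decide)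
          rw [hw', D_ab]
          by_cases hb : bc w' = true
          · right
            obtain ⟨k, y, hk⟩ := bc_spec w' hb
            refine ⟨k + 1, k, y, [], by intro x hx; simp at hx, by omega, ?_, ?_⟩
            · rw [hUnil, List.nil_append] at hw'
              rw [hw', hk]; rfl
            · show D (L.a :: L.b :: w') = _
              rw [D_ab, if_pos hb, hk]; rfl
          · left
            rw [if_neg hb, ← hw']; rfl
        · push Not at hw
          left
          rw [D_other _ hw]; rfl
      · right
        have hD : gen L.d (run U w) = D (s ++ L.a :: (List.replicate j L.b ++ L.c :: y)) := by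
          rw [h]; rfl
        rw [hD]
        cases s with
        | nil =>
          cases j with
          | zero =>
            refine ⟨k, 0, y, [L.d], ?_, hjk, hw, rfl⟩
            intro x hx
            rw [List.mem_singleton] at hx
            right; exact hx
          | succ j =>
            refine ⟨k, j, y, [], by intro x hx; simp at hx, by omega, hw, ?_⟩
            show (if bc (List.replicate j L.b ++ L.c :: y) then _ else _) = _
            rw [if_pos (bc_rep j y)]; rfl
        | cons x s =>
          refine ⟨k, j, y, L.d :: x :: s, ?_, hjk, hw, ?_⟩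
          · intro x' hx'
            rw [List.mem_cons] at hx'
            rcases hx' with rfl | hx'
            · right; rfl
            · exact hs x' hx'
          · apply D_other
            intro w' hw'
            simp only [List.cons_append, List.cons.injEq] at hw'
            rcases hs x (by simp) with hx | hx
            · rw [hx] at hw'; exact absurd hw'.1 (by decide)
            · rw [hx] at hw'; exact absurd hw'.1 (by decide)

theorem rep_ne (j k : ℕ) (hjk : j < k) (y z : List L) :
    List.replicate j L.b ++ L.c :: z ≠ List.replicate k L.b ++ L.c :: y := by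
  intro h
  induction j generalizing k with
  | zero =>
    obtain ⟨k, rfl⟩ : ∃ k', k = k' + 1 := ⟨k - 1, by omega⟩
    simp [List.replicate_succ] at h
  | succ j ih =>
    obtain ⟨k, rfl⟩ : ∃ k', k = k' + 1 := ⟨k - 1, by omega⟩
    rw [List.replicate_succ, List.replicate_succ, List.cons_append, List.cons_append,
      List.cons.injEq] at h
    exact ih k (by omega) h.2

theorem bd_of_count (U : List L) (ha : U.count L.a = 0) (hc : U.count L.c = 0) : BD U := by
  intro x hx
  have h1 := List.count_eq_zero.mp ha
  have h2 := List.count_eq_zero.mp hc
  cases x with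
  | a => exact absurd hx h1
  | b => left; rfl
  | c => exact absurd hx h2
  | d => right; rfl

theorem no_cycle (U X V : List L) (h : run U (run X (run V [])) = run X []) :
    U = [] ∧ V = [] := by
  have ha := congrArg (List.count L.a) h
  have hc := congrArg (List.count L.c) h
  rw [count_a_run, count_a_run, count_a_run, count_a_run] at ha
  rw [count_c_run, count_c_run, count_c_run, count_c_run] at hc
  have hU : BD U := bd_of_count U (by omega) (by omega)
  have hV : BD V := bd_of_count V (by omega) (by omega)
  have hV' : run V [] = V := by
    rcases claim V hV [] with h | ⟨k, j, y, s, -, -, h, -⟩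
    · rw [h, List.append_nil]
    · simp at h
  have hcV : L.c ∉ V := by
    intro hx
    rcases hV _ hx with h | h <;> exact absurd h (by decide)
  rw [hV'] at h
  have h1 : run X V = run X [] ++ V := run_append X [] V hcV
  rw [h1] at h
  rcases claim U hU (run X [] ++ V) with h2 | ⟨k, j, y, s, hs, hjk, hw, h2⟩
  · rw [h2] at h
    have := congrArg List.length h
    simp only [List.length_append] at this
    exact ⟨List.length_eq_zero_iff.mp (by omega), List.length_eq_zero_iff.mp (by omega)⟩
  · exfalso
    rw [h2] at h
    rw [← h] at hw
    cases s with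
    | nil =>
      simp only [List.nil_append, List.cons_append, List.cons.injEq, true_and,
        List.append_assoc] at hw
      exact rep_ne j k hjk _ _ hw
    | cons x s =>
      simp only [List.cons_append, List.cons.injEq] at hw
      rcases hs x (by simp) with hx | hx
      · rw [hx] at hw; exact absurd hw.1 (by decide)
      · rw [hx] at hw; exact absurd hw.1 (by decide)

/-- The monoid: all maps given by words. -/
abbrev H : Type := MonoidHom.mrange Φ

theorem exists_word (x : H) : ∃ X : List L, ∀ w, (x : Function.End (List L)) w = run X w := by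
  obtain ⟨X, hX⟩ := x.2
  exact ⟨FreeMonoid.toList X, fun w => by rw [← hX]; rfl⟩

theorem acyc (u v x : H) (h : u * x * v = x) (U V : List L)
    (hU : ∀ w, (u : Function.End (List L)) w = run U w)
    (hV : ∀ w, (v : Function.End (List L)) w = run V w) : U = [] ∧ V = [] := by
  obtain ⟨X, hX⟩ := exists_word x
  apply no_cycle U X V
  have h1 : ((u * x * v : H) : Function.End (List L)) [] = (x : Function.End (List L)) [] := by
    rw [h]
  rw [← hV, ← hX, ← hU, ← hX]
  exact h1

theorem eq_one (u : H) (hU : ∀ w, (u : Function.End (List L)) w = run [] w) : u = 1 := by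
  apply Subtype.ext
  funext w
  rw [hU, run_nil]
  rfl

theorem isAcyclic : IsAcyclic H := by
  intro u v x huv h
  obtain ⟨U, hU⟩ := exists_word u
  obtain ⟨V, hV⟩ := exists_word v
  obtain ⟨rfl, rfl⟩ := acyc u v x h U V hU hV
  rcases huv with hu | hv
  · exact hu (by rw [eq_one u hU]; exact isUnit_one)
  · exact hv (by rw [eq_one v hV]; exact isUnit_one)

/-- The element of `H` given by a word. -/
def el (U : List L) : H := ⟨Φ (FreeMonoid.ofList U), ⟨FreeMonoid.ofList U, rfl⟩⟩

theorem el_run (U w : List L) : (el U : Function.End (List L)) w = run U w := rfl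

theorem run_concat (P Q w : List L) : run (P ++ Q) w = run P (run Q w) := by
  induction P with
  | nil => rw [run_nil]; rfl
  | cons g P ih => rw [List.cons_append, run_cons, run_cons, ih]

/-- The words `a b^k c`. -/
def chain (k : ℕ) : H := el (L.a :: (List.replicate k L.b ++ [L.c]))

theorem run_rep (k : ℕ) (w : List L) :
    run (L.a :: (List.replicate k L.b ++ [L.c])) w =
      L.a :: (List.replicate k L.b ++ L.c :: w) := by
  rw [run_cons]
  have : ∀ k : ℕ, run (List.replicate k L.b ++ [L.c]) w = List.replicate k L.b ++ L.c :: w := by
    intro k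
    induction k with
    | zero => rw [List.replicate_zero, List.nil_append, run_cons, run_nil]; rfl
    | succ k ih =>
      rw [List.replicate_succ, List.cons_append, run_cons, ih]; rfl
  rw [this]
  rfl

theorem chain_step (k : ℕ) : chain k = el [L.d] * chain (k + 1) := by
  apply Subtype.ext
  funext w
  show run _ w = run [L.d] (run _ w)
  rw [run_rep, run_rep, run_cons, run_nil]
  show _ = (if bc (List.replicate k L.b ++ L.c :: w) then _ else _)
  rw [if_pos (bc_rep k w)]; rfl

theorem chain_strict (k : ℕ) : principal (chain k) ⊂ principal (chain (k + 1)) := by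
  constructor
  · rintro z ⟨p, q, rfl⟩
    exact ⟨p * el [L.d], q, by rw [chain_step k]; simp only [mul_assoc]⟩
  · intro hsub
    obtain ⟨p, q, hpq⟩ := hsub (show chain (k + 1) ∈ principal (chain (k + 1)) from
      ⟨1, 1, by simp⟩)
    obtain ⟨P, hP⟩ := exists_word p
    obtain ⟨Q, hQ⟩ := exists_word q
    have h1 : (p * el [L.d]) * chain (k + 1) * q = chain (k + 1) := by
      conv_rhs => rw [hpq, chain_step k]
      simp only [mul_assoc]
    have h2 := (acyc (p * el [L.d]) q (chain (k + 1)) h1 (P ++ [L.d]) Q (by
      intro w
      show (p : Function.End (List L)) (run [L.d] w) = _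
      rw [hP, run_concat]) hQ).1
    simp at h2

theorem fg : Monoid.FG H := by
  have h1 : (MonoidHom.mrange Φ).FG := by
    rw [Submonoid.fg_iff]
    refine ⟨Set.range gen, ?_, Set.finite_range gen⟩
    rw [Φ, FreeMonoid.mrange_lift]
  exact (Monoid.fg_iff_submonoid_fg _).mpr h1

theorem result : ∃ (H : Type) (_ : Monoid H), Monoid.FG H ∧ IsAcyclic H ∧
    ∃ x : ℕ → H, ∀ k, principal (x k) ⊂ principal (x (k + 1)) :=
  ⟨H, inferInstance, fg, isAcyclic, chain, chain_strict⟩

end Pool.Agent.Results.MP_07bc1a_al.AcyclicNotACCP
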